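import Pool.Agent.Lib.MP_acafa7_al.MS.Iface1

/-! Module Thm1 of the board `msa_modules` (helper49): commensurators of `Z^2` subgroups. -/

namespace MSG.H49

/-- Elements of the closure of two commuting elements. -/
theorem mem_closure_comm {Γ : Type} [Group Γ] {a b : Γ} (hab : a * b = b * a) {s : Γ}
    (hs : s ∈ Subgroup.closure {a, b}) : ∃ i j : ℤ, s = a ^ i * b ^ j := by
  have hc : Commute a b := hab
  induction hs using Subgroup.closure_induction with
  | mem x hx =>
    rcases hx with rfl | hx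
    · exact ⟨1, 0, by simp⟩
    · rw [Set.mem_singleton_iff] at hx
      subst hx
      exact ⟨0, 1, by simp⟩
  | one => exact ⟨0, 0, by simp⟩
  | mul x y _ _ ihx ihy =>
    obtain ⟨i, j, rfl⟩ := ihx
    obtain ⟨k, l, rfl⟩ := ihy
    refine ⟨i + k, j + l, ?_⟩
    have h1 : b ^ j * a ^ k = a ^ k * b ^ j := ((hc.zpow_zpow k j).symm).eq
    rw [zpow_add, zpow_add]
    calc a ^ i * b ^ j * (a ^ k * b ^ l) = a ^ i * (b ^ j * a ^ k) * b ^ l := by group
      _ = a ^ i * (a ^ k * b ^ j) * b ^ l := by rw [h1]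
      _ = a ^ i * a ^ k * (b ^ j * b ^ l) := by group
  | inv x _ ih =>
    obtain ⟨i, j, rfl⟩ := ih
    refine ⟨-i, -j, ?_⟩
    have h1 : b ^ (-j) * a ^ (-i) = a ^ (-i) * b ^ (-j) := ((hc.zpow_zpow (-i) (-j)).symm).eq
    rw [mul_inv_rev, ← zpow_neg, ← zpow_neg, h1]

theorem thm1 (hComm : CommStatement) : Thm1Statement := by
  intro Γ _ hMS a b hab hfree N hAN hN
  classical
  obtain ⟨V, X, _, hX, hG⟩ := hMS
  obtain ⟨F, hF⟩ := hComm V X Γ hX hG a b hab hfree
  set A : Subgroup Γ := Subgroup.closure {a, b} with hA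
  have haA : a ∈ A := Subgroup.subset_closure (by simp)
  have hbA : b ∈ A := Subgroup.subset_closure (by simp)
  -- the exponents
  have hm : ∀ f : Γ, ∃ m : ℕ, 1 ≤ m ∧ (f ∈ N → f⁻¹ * a ^ m * f ∈ A ∧ f⁻¹ * b ^ m * f ∈ A) := by
    intro f
    by_cases hf : f ∈ N
    · obtain ⟨m, h1, h2⟩ := hN f hf
      exact ⟨m, h1, fun _ => h2⟩
    · exact ⟨1, le_refl _, fun h => absurd h hf⟩
  choose m hm1 hm2 using hm
  -- the finite set of representatives
  set E : Finset Γ := F.biUnion fun f =>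
    ((Finset.range (m f)) ×ˢ (Finset.range (m f))).image fun p => a ^ p.1 * b ^ p.2 * f with hE
  have key : ∀ g : N, ∃ e ∈ E, e⁻¹ * (g : Γ) ∈ A := by
    rintro ⟨g, hg⟩
    obtain ⟨f, hfF, s, hs, t, ht, hgst⟩ := hF g (hN g hg)
    have hfN : f ∈ N := by
      have : f = s⁻¹ * g * t⁻¹ := by rw [hgst]; group
      rw [this]
      exact N.mul_mem (N.mul_mem (N.inv_mem (hAN hs)) hg) (N.inv_mem (hAN ht))
    obtain ⟨i, j, hij⟩ := mem_closure_comm hab hs
    have hmpos : (0 : ℤ) < (m f : ℤ) := by exact_mod_cast hm1 f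
    obtain ⟨p, hp⟩ := Int.eq_ofNat_of_zero_le (Int.emod_nonneg i (ne_of_gt hmpos))
    obtain ⟨q, hq⟩ := Int.eq_ofNat_of_zero_le (Int.emod_nonneg j (ne_of_gt hmpos))
    have hp' : p < m f := by
      have := Int.emod_lt_of_pos i hmpos
      rw [hp] at this
      exact_mod_cast this
    have hq' : q < m f := by
      have := Int.emod_lt_of_pos j hmpos
      rw [hq] at this
      exact_mod_cast this
    refine ⟨a ^ p * b ^ q * f, ?_, ?_⟩
    · rw [hE, Finset.mem_biUnion]
      refine ⟨f, hfF, Finset.mem_image.mpr ⟨(p, q), ?_, rfl⟩⟩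
      exact Finset.mem_product.mpr ⟨Finset.mem_range.mpr hp', Finset.mem_range.mpr hq'⟩
    · -- s = a^p b^q (a^m)^u (b^m)^v
      set u : ℤ := i / (m f : ℤ) with hu
      set v : ℤ := j / (m f : ℤ) with hv
      have hi : i = (p : ℤ) + (m f : ℤ) * u := by
        have := Int.emod_add_mul_ediv i (m f : ℤ)
        rw [hp] at this
        exact this.symm
      have hj : j = (q : ℤ) + (m f : ℤ) * v := by
        have := Int.emod_add_mul_ediv j (m f : ℤ)
        rw [hq] at this
        exact this.symm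
      have hc : Commute a b := hab
      have hs2 : s = a ^ p * b ^ q * ((a ^ (m f)) ^ u * (b ^ (m f)) ^ v) := by
        rw [hij, hi, hj, zpow_add, zpow_add, zpow_mul, zpow_mul, zpow_natCast, zpow_natCast,
          zpow_natCast, zpow_natCast]
        have h1 : (a ^ (m f)) ^ u * b ^ q = b ^ q * (a ^ (m f)) ^ u :=
          (((hc.pow_pow (m f) q).zpow_left u)).eq
        calc a ^ p * (a ^ m f) ^ u * (b ^ q * (b ^ m f) ^ v)
            = a ^ p * ((a ^ m f) ^ u * b ^ q) * (b ^ m f) ^ v := by group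
          _ = a ^ p * (b ^ q * (a ^ m f) ^ u) * (b ^ m f) ^ v := by rw [h1]
          _ = a ^ p * b ^ q * ((a ^ (m f)) ^ u * (b ^ (m f)) ^ v) := by group
      have h3 := hm2 f hfN
      have e1 : (a ^ p * b ^ q * f)⁻¹ * g =
          (f⁻¹ * a ^ (m f) * f) ^ u * (f⁻¹ * b ^ (m f) * f) ^ v * t := by
        have c1 : (f⁻¹ * a ^ (m f) * f) ^ u = f⁻¹ * (a ^ (m f)) ^ u * f := by
          have := conj_zpow (i := u) (a := f⁻¹) (b := a ^ (m f))
          rw [inv_inv] at this
          exact this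
        have c2 : (f⁻¹ * b ^ (m f) * f) ^ v = f⁻¹ * (b ^ (m f)) ^ v * f := by
          have := conj_zpow (i := v) (a := f⁻¹) (b := b ^ (m f))
          rw [inv_inv] at this
          exact this
        rw [c1, c2, hgst, hs2]
        generalize (a ^ (m f)) ^ u = x
        generalize (b ^ (m f)) ^ v = y
        generalize a ^ p * b ^ q = z
        group
      change (a ^ p * b ^ q * f)⁻¹ * g ∈ A
      rw [e1]
      exact A.mul_mem (A.mul_mem (A.zpow_mem h3.1 u) (A.zpow_mem h3.2 v)) ht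
  choose φ hφE hφA using key
  have hfin : Finite (N ⧸ A.subgroupOf N) := by
    refine Finite.of_injective (β := E) (fun q => ⟨φ q.out, hφE _⟩) ?_
    intro q q' hqq
    have h0 : φ q.out = φ q'.out := congrArg Subtype.val hqq
    have h1 := hφA q.out
    have h2 := hφA q'.out
    rw [← h0] at h2
    have h3 : ((q.out : N) : Γ)⁻¹ * ((q'.out : N) : Γ) ∈ A := by
      have e : ((q.out : N) : Γ)⁻¹ * ((q'.out : N) : Γ) =
          ((φ q.out)⁻¹ * ((q.out : N) : Γ))⁻¹ * ((φ q.out)⁻¹ * ((q'.out : N) : Γ)) := by group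
      rw [e]
      exact A.mul_mem (A.inv_mem h1) h2
    rw [← QuotientGroup.out_eq' q, ← QuotientGroup.out_eq' q']
    rw [QuotientGroup.eq, Subgroup.mem_subgroupOf]
    exact h3
  have := hfin
  exact Subgroup.index_ne_zero_of_finite

end MSG.H49
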